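import Mathlib
import Pool.Agent.Lib.MP_eebbd0_lc.Core

/-!
The uniformity numbers of the ideals of null sets for the `r`- and `s`-dimensional Hausdorff
measures on Euclidean `n`-space coincide for `0 < r < s < n`.
-/

namespace Pool.Agent.Variants.MP_eebbd0_lc.NonEq

open MeasureTheory Pool.Agent.Lib.MP_eebbd0_lc

theorem null_iff {n : ℕ} {d : ℝ} (hd : 0 ≤ d) (X : Set (EuclideanSpace ℝ (Fin n))) :
    μH[d] X = 0 ↔ μH[d] (WithLp.ofLp '' X) = 0 := by
  constructor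
  · intro h
    have := (PiLp.lipschitzWith_ofLp 2 (fun _ : Fin n => ℝ)).hausdorffMeasure_image_le hd X
    rw [h, mul_zero] at this
    exact le_antisymm this zero_le
  · intro h
    have := (PiLp.antilipschitzWith_ofLp 2 (fun _ : Fin n => ℝ)).le_hausdorffMeasure_image hd X
    rw [h, mul_zero] at this
    exact le_antisymm this zero_le

theorem exists_not_null {n : ℕ} {r s : ℝ} (hr : 0 < r) (hs : 0 < s) (hsn : s < n)
    {X : Set (EuclideanSpace ℝ (Fin n))} (hX : μH[r] X ≠ 0) :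
    ∃ Y : Set (EuclideanSpace ℝ (Fin n)), μH[s] Y ≠ 0 ∧ Cardinal.mk Y ≤ Cardinal.mk X := by
  rw [Ne, null_iff hr.le] at hX
  obtain ⟨Y, hY, hc⟩ := exists_not_null_pi hr hs hsn hX
  refine ⟨WithLp.toLp 2 '' Y, ?_, Cardinal.mk_image_le.trans (hc.trans Cardinal.mk_image_le)⟩
  rw [Ne, null_iff hs.le, Set.image_image]
  simpa using hY

theorem univ_not_null {n : ℕ} {r : ℝ} (hr : 0 < r) (hrn : r < n) :
    μH[r] (Set.univ : Set (EuclideanSpace ℝ (Fin n))) ≠ 0 := by
  rw [Ne, null_iff hr.le, Set.image_univ, (WithLp.ofLp_surjective 2).range_eq]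
  intro h
  have h1 := Measure.hausdorffMeasure_mono hrn.le (Set.univ : Set (Fin n → ℝ))
  have h2 : (μH[(n : ℝ)] : Measure (Fin n → ℝ)) = volume := by
    simpa using (hausdorffMeasure_pi_real (ι := Fin n))
  rw [h, h2] at h1
  exact (Measure.IsOpenPosMeasure.open_pos (μ := volume) Set.univ isOpen_univ Set.univ_nonempty)
    (le_antisymm h1 zero_le)

/-- For `0 < r < s < n`, one and the same cardinal is the least size of a subset of `ℝ^n` that is
not `H^r`-null and the least size of a subset of `ℝ^n` that is not `H^s`-null. -/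
theorem result (n : ℕ) (r s : ℝ) (hr : 0 < r) (hrs : r < s) (hsn : s < n) :
    ∃ κ : Cardinal.{0},
      IsLeast {c : Cardinal.{0} | ∃ X : Set (EuclideanSpace ℝ (Fin n)),
        Measure.hausdorffMeasure r X ≠ 0 ∧ Cardinal.mk X = c} κ ∧
      IsLeast {c : Cardinal.{0} | ∃ X : Set (EuclideanSpace ℝ (Fin n)),
        Measure.hausdorffMeasure s X ≠ 0 ∧ Cardinal.mk X = c} κ := by
  have hs : 0 < s := hr.trans hrs
  obtain ⟨κ, ⟨X, hX, hXκ⟩, hmin⟩ := wellFounded_lt.has_min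
    {c : Cardinal.{0} | ∃ X : Set (EuclideanSpace ℝ (Fin n)),
        Measure.hausdorffMeasure r X ≠ 0 ∧ Cardinal.mk X = c}
    ⟨_, Set.univ, univ_not_null hr (hrs.trans hsn), rfl⟩
  have hlow : ∀ Z : Set (EuclideanSpace ℝ (Fin n)), μH[s] Z ≠ 0 → κ ≤ Cardinal.mk Z := by
    intro Z hZ
    refine not_lt.1 (hmin _ ⟨Z, fun h => hZ ?_, rfl⟩)
    have := Measure.hausdorffMeasure_mono hrs.le Z
    rw [h] at this
    exact le_antisymm this zero_le
  obtain ⟨Y, hY, hYX⟩ := exists_not_null hr hs hsn hX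
  refine ⟨κ, ⟨⟨X, hX, hXκ⟩, fun c hc => not_lt.1 (hmin c hc)⟩,
    ⟨Y, hY, le_antisymm (hXκ ▸ hYX) (hlow Y hY)⟩, ?_⟩
  rintro c ⟨Z, hZ, rfl⟩
  exact hlow Z hZ

end Pool.Agent.Variants.MP_eebbd0_lc.NonEq
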